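import Pool.Agent.Lib.NSW77.Elem

/-! The smooth part of the norms of `x ^ n - 1`. -/

set_option autoImplicit false

open Polynomial Finset

namespace Pool.Agent.Lib.NSW13
open NSW77

/-- logarithm of the part of `m` made of primes at most `Z` -/
noncomputable def sm (Z : ℝ) (m : ℕ) : ℝ :=
  m.factorization.sum fun q e => if (q : ℝ) ≤ Z then e * Real.log q else 0

lemma sm_mul (Z : ℝ) {a b : ℕ} (ha : a ≠ 0) (hb : b ≠ 0) : sm Z (a * b) = sm Z a + sm Z b := by
  rw [sm, Nat.factorization_mul ha hb, Finsupp.sum_add_index']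
  · rfl
  · simp
  · intro q e f
    split_ifs
    · push_cast; ring
    · simp

lemma sm_nonneg (Z : ℝ) (m : ℕ) : 0 ≤ sm Z m := by
  rw [sm, Finsupp.sum]
  refine sum_nonneg fun q _ => ?_
  split_ifs
  exacts [mul_nonneg (Nat.cast_nonneg _) (Real.log_natCast_nonneg q), le_rfl]

lemma sm_le_log (Z : ℝ) (m : ℕ) : sm Z m ≤ Real.log m := by
  rw [Real.log_nat_eq_sum_factorization, sm, Finsupp.sum, Finsupp.sum]
  refine sum_le_sum fun q _ => ?_
  split_ifs
  exacts [le_rfl, mul_nonneg (Nat.cast_nonneg _) (Real.log_natCast_nonneg q)]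

lemma sm_prod (Z : ℝ) (s : Finset ℕ) (f : ℕ → ℕ) (hf : ∀ d ∈ s, f d ≠ 0) :
    sm Z (∏ d ∈ s, f d) = ∑ d ∈ s, sm Z (f d) := by
  induction s using Finset.induction_on with
  | empty => simp [sm]
  | insert a s ha ih =>
    rw [prod_insert ha, sum_insert ha, sm_mul Z (hf a (mem_insert_self _ _))
      (prod_ne_zero_iff.2 fun d hd => hf d (mem_insert_of_mem hd)),
      ih fun d hd => hf d (mem_insert_of_mem hd)]

lemma split (Z : ℝ) {m : ℕ} (hm : m ≠ 0) : ∃ a b : ℕ, m = a * b ∧ (a : ℝ) = Real.exp (sm Z m) ∧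
    ∀ q : ℕ, q.Prime → q ∣ b → Z < q := by
  refine ⟨∏ q ∈ m.primeFactors.filter (fun q : ℕ => (q : ℝ) ≤ Z), q ^ m.factorization q,
    ∏ q ∈ m.primeFactors.filter (fun q : ℕ => ¬ (q : ℝ) ≤ Z), q ^ m.factorization q, ?_, ?_,
    fun q hq h => ?_⟩
  · rw [prod_filter_mul_prod_filter_not]
    exact (Nat.prod_factorization_pow_eq_self hm).symm
  · rw [sm, Finsupp.sum, Nat.support_factorization, ← sum_filter, Real.exp_sum, Nat.cast_prod]
    refine prod_congr rfl fun q hq => ?_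
    have q0 : (0 : ℝ) < q := by
      exact_mod_cast (Nat.prime_of_mem_primeFactors (mem_filter.1 hq).1).pos
    rw [Real.exp_nat_mul, Real.exp_log q0, Nat.cast_pow]
  · obtain ⟨t, ht, h1⟩ := (Nat.Prime.prime hq).exists_mem_finset_dvd h
    obtain ⟨h2, h3⟩ := mem_filter.1 ht
    rw [(Nat.prime_dvd_prime_iff_eq hq (Nat.prime_of_mem_primeFactors h2)).1
      (hq.dvd_of_dvd_pow h1)]
    exact not_le.1 h3

lemma prod_cy {n : ℕ} (hn : 0 < n) (x : ℤ√2) :
    (x ^ n - 1).norm.natAbs = ∏ d ∈ n.divisors, cy d x := by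
  have h := congrArg (eval x) (prod_cyclotomic_eq_X_pow_sub_one hn (ℤ√2))
  rw [eval_sub, eval_pow, eval_X, eval_one, eval_prod] at h
  rw [← h]
  exact map_prod (Int.natAbsHom.toMonoidHom.comp Zsqrtd.normMonoidHom) _ _

lemma norm_le (d : ℕ) {x : ℤ√2} (hx : x = ⟨3, 2⟩ ∨ x = -⟨3, 2⟩) :
    ((x ^ d - 1).norm.natAbs : ℝ) ≤ Real.exp (2 * d + 2) := by
  let f := Zsqrtd.toReal (d := 2) (by norm_num)
  have h1 := hom_norm f (x ^ d - 1)
  have hs1 : (1 : ℝ) ≤ √2 := by rw [Real.le_sqrt] <;> norm_num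
  have hs2 : √(2 : ℝ) ≤ 3 / 2 := by rw [Real.sqrt_le_iff]; norm_num
  have e1 : |f x| ≤ 6 := by
    rcases hx with rfl | rfl
    · simp only [f, Zsqrtd.toReal_apply]; push_cast; rw [abs_le]; constructor <;> linarith
    · rw [map_neg, abs_neg]
      simp only [f, Zsqrtd.toReal_apply]; push_cast; rw [abs_le]; constructor <;> linarith
  have e2 : |f.comp (starRingEnd _) x| ≤ 1 := by
    have : f.comp (starRingEnd _) ⟨3, 2⟩ = 3 - 2 * √2 := by
      simp only [f, RingHom.comp_apply, starRingEnd_apply, Zsqrtd.star_mk, Zsqrtd.toReal_apply]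
      push_cast; ring
    rcases hx with rfl | rfl
    · rw [this, abs_le]; constructor <;> linarith
    · rw [map_neg, abs_neg, this, abs_le]; constructor <;> linarith
  have k : ∀ t M : ℝ, |t| ≤ M → |t ^ d - 1| ≤ M ^ d + 1 := fun t M h => by
    have a := abs_sub (t ^ d) 1
    rw [abs_pow, abs_one] at a
    exact a.trans (add_le_add_left (pow_le_pow_left₀ (abs_nonneg t) h d) 1)
  have h2 := mul_le_mul (k _ _ e1) (k _ _ e2) (abs_nonneg _) (by positivity)
  rw [← abs_mul] at h2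
  simp only [map_sub, map_pow, map_one] at h1
  rw [← h1, one_pow] at h2
  rw [Nat.cast_natAbs, Int.cast_abs]
  refine h2.trans ?_
  have h3 : (6 : ℝ) ^ d ≤ Real.exp 2 ^ d := pow_le_pow_left₀ (by norm_num) (by
    rw [show (2 : ℝ) = 1 + 1 by norm_num, Real.exp_add]
    nlinarith [Real.exp_one_gt_d9]) d
  have h4 : (1 : ℝ) ≤ 6 ^ d := one_le_pow₀ (by norm_num)
  have h5 : (4 : ℝ) ≤ Real.exp 2 := by
    rw [show (2 : ℝ) = 1 + 1 by norm_num, Real.exp_add]
    nlinarith [Real.exp_one_gt_d9]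
  rw [Real.exp_add, mul_comm (2 : ℝ), Real.exp_nat_mul]
  nlinarith

/-- the basic inequality for the smooth part -/
lemma sm_le {n c : ℕ} (hn : 1 ≤ n) (hc : c ≠ 0) {x : ℤ√2} (hx : x = ⟨3, 2⟩ ∨ x = -⟨3, 2⟩)
    (hd : (x ^ n - 1).norm.natAbs ∣ c) {Y T B : ℝ} (hY : 0 ≤ Y) (hT : 0 ≤ T) (hB : 0 ≤ B)
    (h : ∀ q : ℕ, q.Prime → (q : ℝ) ≤ Y * T → c.factorization q * Real.log q ≤ B) :
    sm (Y * T) (x ^ n - 1).norm.natAbs ≤
      n.divisors.card * (2 * T + 2 + (2 * Real.log n + 2 * Y + 4) * B) := by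
  have n0 : (x ^ n - 1).norm.natAbs ≠ 0 := fun h0 => hc (Nat.eq_zero_of_zero_dvd (h0 ▸ hd))
  have hx1 : x.norm = 1 := by rcases hx with rfl | rfl <;> simp [Zsqrtd.norm]
  have ln := Real.log_natCast_nonneg n
  have c0 : ∀ d ∈ n.divisors, cy d x ≠ 0 := prod_ne_zero_iff.1 (prod_cy hn x ▸ n0)
  rw [prod_cy hn, sm_prod _ _ _ c0, ← nsmul_eq_mul]
  refine sum_le_card_nsmul _ _ _ fun d hdn => ?_
  have d0 := Nat.pos_of_mem_divisors hdn
  have d1 : cy d x ∣ c := ((dvd_prod_of_mem _ hdn).trans (prod_cy hn x).symm.dvd).trans hd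
  rcases le_total (d : ℝ) T with h1 | h1
  · have a0 : (x ^ d - 1).norm.natAbs ≠ 0 := by
      rw [prod_cy d0]
      exact prod_ne_zero_iff.2 fun e he => c0 e (Nat.divisors_subset_of_dvd (by omega)
        (Nat.dvd_of_mem_divisors hdn) he)
    have a1 : (cy d x : ℝ) ≤ Real.exp (2 * d + 2) :=
      le_trans (by exact_mod_cast Nat.le_of_dvd (Nat.pos_of_ne_zero a0) (cy_dvd d x)) (norm_le d hx)
    have a2 := (Real.log_le_iff_le_exp (by exact_mod_cast Nat.pos_of_ne_zero (c0 d hdn))).2 a1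
    have a3 : 0 ≤ (2 * Real.log n + 2 * Y + 4) * B := by positivity
    linarith [sm_le_log (Y * T) (cy d x)]
  · set S := (cy d x).primeFactors.filter fun q : ℕ => (q : ℝ) ≤ Y * T with hS
    have pS : ∀ q ∈ S, q.Prime := fun q hq => Nat.prime_of_mem_primeFactors (mem_filter.1 hq).1
    have a1 := card_le (n := d) (A := ∏ q ∈ S, q) d0 hY fun q hq => by
      rw [Nat.primeFactors_prod pS] at hq
      exact ⟨(mem_filter.1 hq).2.trans (mul_le_mul_of_nonneg_left h1 hY), or_iff_not_imp_left.mpr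
        (prime_cy (pS q hq) hx1 (Nat.dvd_of_mem_primeFactors (mem_filter.1 hq).1))⟩
    rw [Nat.primeFactors_prod pS] at a1
    have a2 : sm (Y * T) (cy d x) ≤ S.card * B := by
      rw [sm, Finsupp.sum, Nat.support_factorization, ← sum_filter, ← nsmul_eq_mul]
      refine sum_le_card_nsmul _ _ _ fun q hq => le_trans (mul_le_mul_of_nonneg_right ?_
        (Real.log_natCast_nonneg q)) (h q (pS q hq) (mem_filter.1 hq).2)
      exact_mod_cast (Nat.factorization_le_iff_dvd (c0 d hdn) hc).mpr d1 q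
    have a3 : Real.log d ≤ Real.log n :=
      Real.log_le_log (by exact_mod_cast d0) (by exact_mod_cast Nat.divisor_le hdn)
    have a4 : (S.card : ℝ) * B ≤ (2 * Real.log n + 2 * Y + 4) * B :=
      mul_le_mul_of_nonneg_right (by linarith) hB
    linarith

lemma log_ge {p r n : ℕ} (h : (⟨1, 1⟩ : ℤ√2) ^ n = ⟨p, r⟩) (hr : r ≤ p) (hn : 8 ≤ n) :
    (n : ℝ) / 2 ≤ Real.log p := by
  have h1 := congrArg (Zsqrtd.toReal (d := 2) (by norm_num)) h
  rw [map_pow] at h1
  simp only [Zsqrtd.toReal_apply] at h1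
  push_cast at h1
  have hs1 : (1 : ℝ) ≤ √2 := by rw [Real.le_sqrt] <;> norm_num
  have hs2 : √(2 : ℝ) ≤ 3 / 2 := by rw [Real.sqrt_le_iff]; norm_num
  have h2 : (2 : ℝ) ^ n ≤ (1 + 1 * √(2 : ℝ)) ^ n := pow_le_pow_left₀ (by norm_num) (by linarith) n
  have h3 : (r : ℝ) ≤ p := by exact_mod_cast hr
  have h4 : (2 : ℝ) ^ n ≤ 2 ^ 2 * p := by nlinarith [Nat.cast_nonneg (α := ℝ) r]
  have p0 : (0 : ℝ) < p := by
    have : (0 : ℝ) < 2 ^ n := by positivity
    linarith
  have h5 := Real.log_le_log (by positivity) h4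
  rw [Real.log_mul (by norm_num) p0.ne', Real.log_pow, Real.log_pow] at h5
  have h6 : (8 : ℝ) ≤ n := by exact_mod_cast hn
  push_cast at h5
  nlinarith [Real.log_two_gt_d9]

end Pool.Agent.Lib.NSW13
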