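import Pool.Agent.Lib.NSW13.Elem
import Pool.Agent.Lib.NSW77.Fin
import Pool.Agent.Lib.NSW91.Main
import Pool.Agent.Lib.MP_fb430f_co.Circle

/-! The smooth part of the solutions of the negative Pell equation is small. -/

set_option autoImplicit false

open Finset Filter Asymptotics

namespace Pool.Agent.Lib.NSW13
open Pool.Agent.Szpiro98 NSW77 NSW91

lemma gr_tau : Gr (fun n => (n.divisors.card : ℝ)) 0 := fun ε hε => by
  obtain ⟨C, -, h⟩ := MP_fb430f_co.div_bound hε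
  refine IsBigO.of_bound C ((eventually_ne_atTop 0).mono fun m hm => ?_)
  rw [zero_add, Real.norm_of_nonneg (by positivity), Real.norm_of_nonneg (by positivity)]
  refine le_trans ?_ (h m hm)
  rw [Nat.card_divisors hm]
  exact_mod_cast Finset.prod_le_prod' fun p _ => by omega

lemma gr_lt {f : ℕ → ℝ} {θ θ' : ℝ} (h : Gr f θ) (e : θ < θ') :
    ∀ᶠ n : ℕ in atTop, f n ≤ (n : ℝ) ^ θ' / 2 := by
  filter_upwards [(h.mul (Gr.rpow (1 - θ'))).lt (by linarith) one_half_pos, eventually_gt_atTop 0]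
    with n h1 h2
  have n0 : (0 : ℝ) < n := by exact_mod_cast h2
  have a : (n : ℝ) ^ θ' * (n : ℝ) ^ (1 - θ') = n := by
    rw [← Real.rpow_add n0, add_sub_cancel, Real.rpow_one]
  refine le_of_mul_le_mul_right ?_ (Real.rpow_pos_of_pos n0 (1 - θ'))
  nlinarith

theorem smooth : ∃ δ : ℝ, 0 < δ ∧ ∃ N : ℕ, ∀ p r : ℕ, N ≤ p →
    (p : ℤ) ^ 2 - 2 * (r : ℤ) ^ 2 = -1 → ∃ a b : ℕ, p * r = a * b ∧
      (a : ℝ) ≤ Real.exp (Real.log p ^ (1 - δ)) ∧
      ∀ q : ℕ, q.Prime → q ∣ b → Real.log p ^ (1 + δ) < q := by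
  obtain ⟨C1, h1⟩ := locp'
  obtain ⟨C2, h2⟩ := loci'
  obtain ⟨δ, C3, δ0, δ1, h3⟩ := locT
  set C := max (max 10 C3) (max C1 C2)
  have c0 : 10 ≤ C := (le_max_left _ _).trans (le_max_left _ _)
  obtain ⟨p1, p2⟩ := V4.comb (δ := δ) (by linarith)
    (h1 C ((le_max_left _ _).trans (le_max_right _ _)))
    (h2 C ((le_max_right _ _).trans (le_max_right _ _)))
    (h3 C ((le_max_right _ _).trans (le_max_left _ _)))
  have hQ := V4.quad _ p1 p2
  have g3 := (Gr.loglin one_pos).pow 3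
  have g1 : Gr (fun n => (n.divisors.card : ℝ) * (2 * (n : ℝ) ^ (1 - δ / 4) + 2 +
      (2 * Real.log n + 2 * (n : ℝ) ^ (δ / 2) + 4) * (8 * ((1 + δ / 4) * Real.log n) +
        2 * (C ^ 3 * 10 ^ 12 * ((1 + (1 + δ / 4) * Real.log n) ^ 10 *
        (n : ℝ) ^ ((1 + δ / 4) * (1 - δ))) * Real.log (3 + 2 * n * 1) ^ 3)))) (1 - δ / 4) := by
    have l1 := fun c => (Gr.const c).mul0 Gr.log
    refine gr_tau.mul0 (Gr.add (((Gr.const _).mul0 (Gr.rpow _)).add
      ((Gr.const _).mono (by linarith))) ?_)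
    refine (Gr.mul (θ := δ / 2) (θ' := (1 + δ / 4) * (1 - δ)) ?_ ?_).mono (by nlinarith)
    · exact (((l1 _).mono (by linarith)).add ((Gr.const _).mul0 (Gr.rpow _))).add
        ((Gr.const _).mono (by linarith))
    · exact (((Gr.const _).mul0 (l1 _)).mono (by nlinarith)).add ((Gr.const _).mul0
        (((Gr.const _).mul0 ((((Gr.const _).add (l1 _)).pow _).mul0 (Gr.rpow _))).mul0' g3))
  obtain ⟨n0, hn0⟩ := eventually_atTop.1 ((gr_lt g1 (show 1 - δ / 4 < 1 - δ / 8 by linarith)).and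
    (eventually_ge_atTop 8))
  refine ⟨δ / 8, by linarith, ⌈Real.exp n0⌉₊, fun p r hp e => ?_⟩
  obtain ⟨k, hk⟩ := param r p (by
    have : (p : ℤ) ^ 2 + 1 = 2 * r ^ 2 := by linarith
    exact_mod_cast this)
  set n := 2 * k + 1
  have hn : Odd n := odd_two_mul_add_one k
  have a1 := le_exp hk
  have a2 := Nat.le_of_ceil_le hp
  have r0 : (0 : ℝ) ≤ r := Nat.cast_nonneg r
  have p0 : (0 : ℝ) < p := (Real.exp_pos _).trans_le a2
  obtain ⟨a3, n8⟩ := hn0 n
    (by exact_mod_cast Real.exp_le_exp.mp (by linarith : Real.exp n0 ≤ Real.exp n))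
  have n3' : (8 : ℝ) ≤ n := by exact_mod_cast n8
  have n0' : (0 : ℝ) < n := by linarith
  have a4 : 4 * ((p : ℝ) + r) ≤ Real.exp (3 + 2 * n * 1) := by
    refine le_trans ?_ (Real.exp_le_exp.2 (show (n : ℝ) + 3 ≤ _ by linarith))
    rw [Real.exp_add]
    have := Real.add_one_le_exp (3 : ℝ)
    nlinarith [Real.exp_pos n]
  have a5 : Real.log p ^ (1 + δ / 8) ≤ (n : ℝ) ^ (1 + δ / 4) :=
    (Real.rpow_le_rpow (Real.log_natCast_nonneg p)
      ((Real.log_le_iff_le_exp p0).mpr (by linarith)) (by linarith)).trans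
      (Real.rpow_le_rpow_of_exponent_le (by linarith) (by linarith))
  have pn : p ≠ 0 := by exact_mod_cast p0.ne'
  have rn : r ≠ 0 := by rintro rfl; push_cast at e; nlinarith [sq_nonneg (p : ℤ)]
  have rp : r ≤ p := by
    by_contra! h
    have h' : (p : ℤ) + 1 ≤ r := by exact_mod_cast h
    have h'' : (1 : ℤ) ≤ p := by exact_mod_cast Nat.pos_of_ne_zero pn
    nlinarith
  have a6 : (n : ℝ) ^ (1 - δ / 8) / 2 ≤ Real.log p ^ (1 - δ / 8) := by
    refine le_trans ?_ (Real.rpow_le_rpow (by positivity) (log_ge hk rp n8) (by linarith))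
    rw [Real.div_rpow n0'.le (by norm_num)]
    refine div_le_div_of_nonneg_left (by positivity) (by positivity) ?_
    conv_rhs => rw [← Real.rpow_one 2]
    exact Real.rpow_le_rpow_of_exponent_le (by norm_num) (by linarith)
  have eZ : (n : ℝ) ^ (δ / 2) * (n : ℝ) ^ (1 - δ / 4) = (n : ℝ) ^ (1 + δ / 4) := by
    rw [← Real.rpow_add n0']
    congr 1
    ring
  have key : ∀ (s t : ℕ) (x : ℤ√2) (A B : ℤ), s ≠ 0 → (x = ⟨3, 2⟩ ∨ x = -⟨3, 2⟩) →
      (x ^ n - 1).norm.natAbs = t * s ^ 2 → t ∣ 8 → ((8 * s ^ 2 : ℕ) : ℤ) = A ^ 2 - 4 * B →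
      (B = 2 ∨ B = -1) → |(A : ℝ)| + 3 * s ≤ Real.exp (3 + 2 * n * 1) →
      2 * sm ((n : ℝ) ^ (1 + δ / 4)) s ≤ (n : ℝ) ^ (1 - δ / 8) / 2 := by
    intro s t x A B s0 hx hd ht e hB hA
    have ln := Real.log_nonneg (show (1 : ℝ) ≤ n by linarith)
    have ll := Real.log_nonneg (show (1 : ℝ) ≤ 3 + 2 * n * 1 by linarith)
    have b := sm_le (n := n) (c := 8 * s ^ 2) (by omega) (by positivity) hx
      (hd ▸ mul_dvd_mul_right ht _) (Y := (n : ℝ) ^ (δ / 2)) (T := (n : ℝ) ^ (1 - δ / 4))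
      (by positivity) (by positivity) (B := 8 * ((1 + δ / 4) * Real.log n) +
        2 * (C ^ 3 * 10 ^ 12 * ((1 + (1 + δ / 4) * Real.log n) ^ 10 *
        (n : ℝ) ^ ((1 + δ / 4) * (1 - δ))) * Real.log (3 + 2 * n * 1) ^ 3)) (by positivity)
      fun q hq hZ => by
        have := val_le (by linarith) δ1 hQ s0 e hB (by linarith) hA hq (hZ.trans eZ.le)
        rwa [Real.log_rpow n0', ← Real.rpow_mul n0'.le] at this
    have t0 : t ≠ 0 := by rintro rfl; simp at ht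
    rw [eZ, hd, sm_mul _ t0 (by positivity), sq, sm_mul _ s0 s0] at b
    linarith [sm_nonneg ((n : ℝ) ^ (1 + δ / 4)) t]
  obtain ⟨b1, b2⟩ := norm_p hn hk
  have k1 := key p 4 _ (4 * r) 2 pn (Or.inl rfl) b1 (by norm_num) (by push_cast; linarith)
    (Or.inl rfl) (by push_cast; rw [abs_of_nonneg (by positivity)]; linarith)
  have k2 := key r 8 _ (2 * p) (-1) rn (Or.inr rfl) b2 dvd_rfl (by push_cast; linarith)
    (Or.inr rfl) (by push_cast; rw [abs_of_nonneg (by positivity)]; linarith)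
  obtain ⟨a, b, e1, e2, e3⟩ := split ((n : ℝ) ^ (1 + δ / 4)) (mul_ne_zero pn rn)
  refine ⟨a, b, e1, ?_, fun q hq h => a5.trans_lt (e3 q hq h)⟩
  rw [e2, sm_mul _ pn rn]
  exact Real.exp_le_exp.2 (by linarith)

end Pool.Agent.Lib.NSW13
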